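import Mathlib
import Pool.Agent.Q82.Semi

/-!
# MP_ae1cd8_an : a detailed-balance jump semigroup that is not uniformly bounded

The birth and death chain on `ℕ` with rates `1` upwards and `2` downwards, `ω n = 2^{-n}`,
`ν {n} = 4^{-n}`. In `L¹(μ)` the operator `U₁` has the eigenvalue `2/3`.
-/

namespace Pool.Agent.Results.MP_ae1cd8_an.Unbounded

open MeasureTheory Filter Topology ENNReal

noncomputable section

variable {Ω : Type} [MeasurableSpace Ω]

/-- The total rate `σ(x) = ∫ p(y,x) ν(dy)`. -/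
def sig (ν : Measure Ω) (p : Ω → Ω → ℝ) (x : Ω) : ℝ≥0∞ := ∫⁻ y, ENNReal.ofReal (p y x) ∂ν

/-- The rate `σ̂_s(y) = ∫ p(y,x) ν(dx)`. -/
def sigHat (ν : Measure Ω) (p : Ω → Ω → ℝ) (y : Ω) : ℝ≥0∞ := ∫⁻ x, ENNReal.ofReal (p y x) ∂ν

/-- The standing assumptions of the problem: `ν` is `σ`-finite, `p ≥ 0` and `ω > 0` are measurable,
detailed balance, `0 < σ < ∞` almost everywhere, and condition (A). -/
structure Assumptions (ν : Measure Ω) (p : Ω → Ω → ℝ) (ω : Ω → ℝ) : Prop where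
  sigmaFinite : SigmaFinite ν
  p_nonneg : ∀ x y, 0 ≤ p x y
  p_meas : Measurable (Function.uncurry p)
  ω_pos : ∀ x, 0 < ω x
  ω_meas : Measurable ω
  balance : ∀ x y, ω x * p x y = ω y * p y x
  sig_pos : ∀ᵐ x ∂ν, 0 < sig ν p x ∧ sig ν p x < ⊤
  condA : ∃ C : ℝ≥0∞, C < ⊤ ∧ ∀ y, sigHat ν p y ≤ C * (1 + sig ν p y)

/-- The measure `μ(dx) = ω(x) ν(dx)`. -/
def mu (ν : Measure Ω) (ω : Ω → ℝ) : Measure Ω := ν.withDensity (fun x => ENNReal.ofReal (ω x))

/-- The complex space `L¹(μ)`. -/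
abbrev L1 (ν : Measure Ω) (ω : Ω → ℝ) : Type := Lp ℂ 1 (mu ν ω)

/-- Bounded operators on `L¹(μ)`. -/
abbrev Op (ν : Measure Ω) (ω : Ω → ℝ) : Type := L1 ν ω →L[ℂ] L1 ν ω

/-- The operator `U₁ = M₁ + P` as a relation: `φ ∈ D(M₁)`, i.e. `σ φ ∈ L¹(μ)`, and
`ψ = -σ φ + ∫ p(·,y) φ(y) ν(dy)`. -/
def U1 (ν : Measure Ω) (p : Ω → Ω → ℝ) (ω : Ω → ℝ) (φ ψ : L1 ν ω) : Prop :=
  Integrable (fun x => ((sig ν p x).toReal : ℂ) * φ x) (mu ν ω) ∧
    ∀ᵐ x ∂(mu ν ω), ψ x = -((sig ν p x).toReal : ℂ) * φ x + ∫ y, (p x y : ℂ) * φ y ∂ν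

/-- `T` is a `C₀`-semigroup. -/
structure IsC0 {ν : Measure Ω} {ω : Ω → ℝ} (T : ℝ → Op ν ω) : Prop where
  zero : T 0 = 1
  add : ∀ s t, 0 ≤ s → 0 ≤ t → T (s + t) = T s * T t
  cont : ∀ φ, ContinuousOn (fun t => T t φ) (Set.Ici 0)

/-- The relation `A` is the generator of `T`. -/
def IsGenerator {ν : Measure Ω} {ω : Ω → ℝ} (A : L1 ν ω → L1 ν ω → Prop) (T : ℝ → Op ν ω) :
    Prop :=
  ∀ φ ψ, A φ ψ ↔ Tendsto (fun t : ℝ => ((t : ℂ)⁻¹) • (T t φ - φ)) (𝓝[>] 0) (𝓝 ψ)

/-- `U₁` generates a uniformly bounded `C₀`-semigroup on `L¹(μ)`. -/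
def GeneratesUniformlyBounded (ν : Measure Ω) (p : Ω → Ω → ℝ) (ω : Ω → ℝ) : Prop :=
  ∃ T : ℝ → Op ν ω, IsC0 T ∧ IsGenerator (U1 ν p ω) T ∧ ∃ M : ℝ, ∀ t, 0 ≤ t → ‖T t‖ ≤ M

/-! ### The example -/

/-- the reference measure, `ν {n} = 4^{-n}` -/
def nu : Measure ℕ := Measure.count.withDensity (fun n => ENNReal.ofReal ((1 / 4) ^ n))

/-- the weight `ω n = 2^{-n}` -/
def om (n : ℕ) : ℝ := (1 / 2) ^ n

/-- the kernel -/
def pp (n m : ℕ) : ℝ := if n = m + 1 then 4 ^ n else if m = n + 1 then 2 * 4 ^ n else 0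

/-- the example's `μ` -/
abbrev mm : Measure ℕ := mu nu om

lemma lint_nu (f : ℕ → ℝ≥0∞) : ∫⁻ n, f n ∂nu = ∑' n, ENNReal.ofReal ((1 / 4) ^ n) * f n := by
  unfold nu
  rw [lintegral_withDensity_eq_lintegral_mul _ (.of_discrete) (.of_discrete), lintegral_count]
  rfl

lemma lint_mm (f : ℕ → ℝ≥0∞) :
    ∫⁻ n, f n ∂mm = ∑' n, ENNReal.ofReal ((1 / 4) ^ n) * (ENNReal.ofReal (om n) * f n) := by
  unfold mm mu
  rw [lintegral_withDensity_eq_lintegral_mul _ (.of_discrete) (.of_discrete), lint_nu]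
  rfl

lemma nu_singleton (n : ℕ) : nu {n} = ENNReal.ofReal ((1 / 4) ^ n) := by
  unfold nu
  rw [withDensity_apply _ (measurableSet_singleton n), Measure.restrict_singleton]
  simp

lemma nu_pos (n : ℕ) : nu {n} ≠ 0 := by
  rw [nu_singleton]
  simp

lemma mm_pos (n : ℕ) : mm {n} ≠ 0 := by
  unfold mm mu
  rw [withDensity_apply _ (measurableSet_singleton n), Measure.restrict_singleton,
    nu_singleton]
  simp [om]

lemma ae_iff_of_pos {μ : Measure ℕ} (h : ∀ n, μ {n} ≠ 0) {q : ℕ → Prop} :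
    (∀ᵐ x ∂μ, q x) ↔ ∀ x, q x := by
  constructor
  · intro hq x
    by_contra hx
    rw [ae_iff] at hq
    have h1 : μ {x} ≤ μ {x | ¬ q x} := measure_mono (by
      intro y hy; rw [Set.mem_singleton_iff] at hy; subst hy; exact hx)
    rw [hq] at h1
    exact h x (le_antisymm h1 bot_le)
  · intro hq
    exact Eventually.of_forall hq

lemma ofReal_mul_ofReal (a b : ℝ) (ha : 0 ≤ a) :
    ENNReal.ofReal a * ENNReal.ofReal b = ENNReal.ofReal (a * b) := (ENNReal.ofReal_mul ha).symm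

/-- a sum over the neighbours of `0` -/
lemma tsum_zero {α : Type} [AddCommMonoid α] [TopologicalSpace α] (f : ℕ → α)
    (h : ∀ n, n ≠ 1 → f n = 0) : ∑' n, f n = f 1 := tsum_eq_single 1 h

/-- a sum over the neighbours of `k + 1` -/
lemma tsum_succ {α : Type} [AddCommMonoid α] [TopologicalSpace α] (k : ℕ) (f : ℕ → α)
    (h : ∀ n, n ≠ k → n ≠ k + 2 → f n = 0) : ∑' n, f n = f k + f (k + 2) := by
  rw [tsum_eq_sum (s := ({k, k + 2} : Finset ℕ))]
  · rw [Finset.sum_pair (by omega)]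
  · intro n hn
    simp only [Finset.mem_insert, Finset.mem_singleton, not_or] at hn
    exact h n hn.1 hn.2

lemma pp_up (m : ℕ) : pp (m + 1) m = 4 ^ (m + 1) := by simp [pp]

lemma pp_down (n : ℕ) : pp n (n + 1) = 2 * 4 ^ n := by
  unfold pp
  rw [if_neg (by omega), if_pos rfl]

lemma pp_zero {n m : ℕ} (h1 : n ≠ m + 1) (h2 : m ≠ n + 1) : pp n m = 0 := by
  unfold pp
  rw [if_neg h1, if_neg h2]

lemma sig_zero : sig nu pp 0 = 1 := by
  unfold sig
  rw [lint_nu, tsum_zero]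
  · rw [pp_up, ofReal_mul_ofReal _ _ (by positivity)]
    norm_num
  · intro n hn
    rw [pp_zero (by omega) (by omega)]
    simp

lemma sig_succ (k : ℕ) : sig nu pp (k + 1) = 3 := by
  unfold sig
  rw [lint_nu, tsum_succ k]
  · rw [pp_down, pp_up (k + 1), ofReal_mul_ofReal _ _ (by positivity),
      ofReal_mul_ofReal _ _ (by positivity)]
    have h1 : (1 / 4 : ℝ) ^ k * (2 * 4 ^ k) = 2 := by
      rw [mul_left_comm, ← mul_pow]; norm_num
    have h2 : (1 / 4 : ℝ) ^ (k + 2) * 4 ^ (k + 1 + 1) = 1 := by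
      rw [← mul_pow]; norm_num
    rw [h1, h2, ← ENNReal.ofReal_add (by norm_num) (by norm_num)]
    norm_num
  · intro n h1 h2
    rw [pp_zero (by omega) (by omega)]
    simp

lemma sigHat_zero : sigHat nu pp 0 ≤ 5 := by
  unfold sigHat
  rw [lint_nu, tsum_zero]
  · rw [pp_down, ofReal_mul_ofReal _ _ (by positivity)]
    have h1 : (1 / 4 : ℝ) ^ 1 * (2 * 4 ^ 0) ≤ 5 := by norm_num
    exact (ENNReal.ofReal_le_ofReal h1).trans (by norm_num)
  · intro n hn
    rw [pp_zero (by omega) (by omega)]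
    simp

lemma sigHat_succ (k : ℕ) : sigHat nu pp (k + 1) ≤ 5 := by
  unfold sigHat
  rw [lint_nu, tsum_succ k]
  · rw [pp_up, pp_down (k + 1), ofReal_mul_ofReal _ _ (by positivity),
      ofReal_mul_ofReal _ _ (by positivity)]
    have h1 : (1 / 4 : ℝ) ^ k * 4 ^ (k + 1) = 4 := by
      rw [pow_succ, ← mul_assoc, ← mul_pow]; norm_num
    have h2 : (1 / 4 : ℝ) ^ (k + 2) * (2 * 4 ^ (k + 1)) = 1 / 2 := by
      rw [pow_succ, mul_assoc, mul_left_comm, mul_left_comm ((1 / 4 : ℝ) ^ (k + 1)), ← mul_pow]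
      norm_num
    rw [h1, h2, ← ENNReal.ofReal_add (by norm_num) (by norm_num)]
    have h3 : (4 + 1 / 2 : ℝ) ≤ 5 := by norm_num
    exact (ENNReal.ofReal_le_ofReal h3).trans (by norm_num)
  · intro n h1 h2
    rw [pp_zero (by omega) (by omega)]
    simp

lemma balance (x y : ℕ) : om x * pp x y = om y * pp y x := by
  by_cases h1 : x = y + 1
  · subst h1
    rw [pp_up, pp_down]
    unfold om
    rw [pow_succ, pow_succ]
    ring
  · by_cases h2 : y = x + 1
    · subst h2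
      rw [pp_up, pp_down]
      unfold om
      rw [pow_succ, pow_succ]
      ring
    · rw [pp_zero h1 h2, pp_zero h2 h1]
      ring

lemma nu_finite : nu Set.univ < ⊤ := by
  have h : nu Set.univ = ∑' n, ENNReal.ofReal ((1 / 4) ^ n) := by
    rw [← lintegral_one, lint_nu]
    simp
  rw [h, ← ENNReal.ofReal_tsum_of_nonneg (fun n => by positivity)
    (summable_geometric_of_lt_one (by norm_num) (by norm_num))]
  exact ENNReal.ofReal_lt_top

lemma assumptions : Assumptions nu pp om where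
  sigmaFinite := by
    have : IsFiniteMeasure nu := ⟨nu_finite⟩
    infer_instance
  p_nonneg := by
    intro x y
    unfold pp
    split_ifs <;> positivity
  p_meas := .of_discrete
  ω_pos := fun x => by unfold om; positivity
  ω_meas := .of_discrete
  balance := balance
  sig_pos := by
    apply Eventually.of_forall
    intro x
    rcases x with _ | k
    · rw [sig_zero]; norm_num
    · rw [sig_succ]; norm_num
  condA := by
    refine ⟨5, by norm_num, fun y => ?_⟩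
    have h : sigHat nu pp y ≤ 5 := by
      rcases y with _ | k
      · exact sigHat_zero
      · exact sigHat_succ k
    refine h.trans ?_
    calc (5 : ℝ≥0∞) = 5 * 1 := by rw [mul_one]
      _ ≤ 5 * (1 + sig nu pp y) := by gcongr; exact le_self_add

lemma om_inv_integrable : Integrable (fun x => 1 / om x) mm := by
  refine ⟨Measurable.aestronglyMeasurable .of_discrete, ?_⟩
  unfold HasFiniteIntegral
  rw [lint_mm]
  have h : ∀ n, ENNReal.ofReal ((1 / 4) ^ n) * (ENNReal.ofReal (om n) * ‖1 / om n‖ₑ) =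
      ENNReal.ofReal ((1 / 4) ^ n) := by
    intro n
    have h1 : 0 < om n := by unfold om; positivity
    rw [← ofReal_norm, Real.norm_eq_abs, abs_of_pos (by positivity),
      ofReal_mul_ofReal _ _ h1.le, mul_one_div_cancel h1.ne']
    simp
  simp_rw [h]
  rw [← ENNReal.ofReal_tsum_of_nonneg (fun n => by positivity)
    (summable_geometric_of_lt_one (by norm_num) (by norm_num))]
  exact ENNReal.ofReal_lt_top

/-- the eigenfunction of the eigenvalue `2/3` -/
def ph (n : ℕ) : ℝ := 4 ^ n * (3 * (3 / 2) ^ n + 4 * (1 / 3) ^ n)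

lemma ph_nonneg (n : ℕ) : 0 ≤ ph n := by unfold ph; positivity

lemma ph_integrable : Integrable (fun n => (ph n : ℂ)) mm := by
  refine ⟨Measurable.aestronglyMeasurable .of_discrete, ?_⟩
  unfold HasFiniteIntegral
  rw [lint_mm]
  have h : ∀ n, ENNReal.ofReal ((1 / 4) ^ n) * (ENNReal.ofReal (om n) * ‖(ph n : ℂ)‖ₑ) =
      ENNReal.ofReal (3 * (3 / 4) ^ n + 4 * (1 / 6) ^ n) := by
    intro n
    have h1 : 0 < om n := by unfold om; positivity
    rw [← ofReal_norm, Complex.norm_real, Real.norm_eq_abs, abs_of_nonneg (ph_nonneg n),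
      ofReal_mul_ofReal _ _ h1.le, ofReal_mul_ofReal _ _ (by positivity)]
    congr 1
    unfold om ph
    have e1 : (3 / 4 : ℝ) ^ n = (1 / 4) ^ n * (1 / 2) ^ n * 4 ^ n * (3 / 2) ^ n := by
      rw [← mul_pow, ← mul_pow, ← mul_pow]; norm_num
    have e2 : (1 / 6 : ℝ) ^ n = (1 / 4) ^ n * (1 / 2) ^ n * 4 ^ n * (1 / 3) ^ n := by
      rw [← mul_pow, ← mul_pow, ← mul_pow]; norm_num
    rw [e1, e2]
    ring
  simp_rw [h]
  rw [← ENNReal.ofReal_tsum_of_nonneg (fun n => by positivity)]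
  · exact ENNReal.ofReal_lt_top
  · exact ((summable_geometric_of_lt_one (by norm_num) (by norm_num)).mul_left _).add
      ((summable_geometric_of_lt_one (by norm_num) (by norm_num)).mul_left _)

/-- the eigenvector as an element of `L¹(μ)` -/
def PH : L1 nu om := MemLp.toLp (fun n => (ph n : ℂ)) (memLp_one_iff_integrable.2 ph_integrable)

lemma PH_coe (n : ℕ) : (PH : ℕ → ℂ) n = (ph n : ℂ) :=
  (ae_iff_of_pos mm_pos).1 (MemLp.coeFn_toLp (memLp_one_iff_integrable.2 ph_integrable)) n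

lemma int_nu (f : ℕ → ℂ) (s : Finset ℕ) (hf : ∀ n, n ∉ s → f n = 0) :
    ∫ n, f n ∂nu = ∑' n, (((1 / 4) ^ n : ℝ) : ℂ) * f n := by
  have hi : Integrable f nu := by
    refine ⟨Measurable.aestronglyMeasurable .of_discrete, ?_⟩
    unfold HasFiniteIntegral
    rw [lint_nu, tsum_eq_sum (s := s)]
    · apply ENNReal.sum_lt_top.2
      intro n _
      exact ENNReal.mul_lt_top ENNReal.ofReal_lt_top (enorm_lt_top)
    · intro n hn
      rw [hf n hn]; simp
  rw [integral_countable hi]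
  congr 1
  funext n
  rw [Measure.real, nu_singleton, ENNReal.toReal_ofReal (by positivity)]
  rfl

lemma ph_eq_zero : (2 / 3 : ℝ) * ph 0 = -1 * ph 0 + (1 / 4) ^ 1 * (pp 0 1 * ph 1) := by
  have : pp 0 1 = 2 * 4 ^ 0 := pp_down 0
  rw [this]
  unfold ph
  norm_num

lemma ph_eq_succ (k : ℕ) : (2 / 3 : ℝ) * ph (k + 1) = -3 * ph (k + 1) +
    ((1 / 4) ^ k * (pp (k + 1) k * ph k) + (1 / 4) ^ (k + 2) * (pp (k + 1) (k + 2) * ph (k + 2))) := by
  rw [pp_up, pp_down (k + 1)]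
  unfold ph
  have e : ∀ j : ℕ, (1 / 4 : ℝ) ^ j = 1 / 4 ^ j := fun j => by rw [one_div_pow]
  rw [e, e]
  have h4 : (4 : ℝ) ^ k ≠ 0 := by positivity
  rw [pow_succ (4 : ℝ) (k + 1), pow_succ (4 : ℝ) k, pow_succ (3 / 2 : ℝ) (k + 1),
    pow_succ (3 / 2 : ℝ) k, pow_succ (1 / 3 : ℝ) (k + 1), pow_succ (1 / 3 : ℝ) k]
  field_simp
  ring

lemma PH_eigen : U1 nu pp om PH (((2 / 3 : ℝ) : ℂ) • PH) := by
  constructor
  · have h1 : Integrable (PH : ℕ → ℂ) mm := memLp_one_iff_integrable.1 (Lp.memLp PH)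
    refine h1.bdd_mul (c := 3) (Measurable.aestronglyMeasurable .of_discrete) ?_
    apply Eventually.of_forall
    intro x
    rcases x with _ | k
    · rw [sig_zero]; simp
    · rw [sig_succ]; simp
  · rw [ae_iff_of_pos mm_pos]
    have hs : ∀ x, ((((2 / 3 : ℝ) : ℂ) • PH : L1 nu om) : ℕ → ℂ) x =
        ((2 / 3 : ℝ) : ℂ) * (ph x : ℂ) := by
      intro x
      have h := (ae_iff_of_pos mm_pos).1 (Lp.coeFn_smul ((2 / 3 : ℝ) : ℂ) PH) x
      rw [h, Pi.smul_apply, PH_coe]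
      rfl
    intro x
    rw [hs, PH_coe]
    simp_rw [PH_coe]
    rcases x with _ | k
    · rw [sig_zero, int_nu _ {1}, tsum_zero]
      · have h := ph_eq_zero
        have h' := congrArg (fun r : ℝ => (r : ℂ)) h
        push_cast at h' ⊢
        simpa using h'
      · intro n hn
        rw [pp_zero (by omega) (by omega)]
        simp
      · intro n hn
        rw [Finset.mem_singleton] at hn
        rw [pp_zero (by omega) (by omega)]
        simp
    · rw [sig_succ, int_nu _ {k, k + 2}, tsum_succ k]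
      · have h := ph_eq_succ k
        have h' := congrArg (fun r : ℝ => (r : ℂ)) h
        push_cast at h' ⊢
        simpa using h'
      · intro n h1 h2
        rw [pp_zero (by omega) (by omega)]
        simp
      · intro n hn
        simp only [Finset.mem_insert, Finset.mem_singleton, not_or] at hn
        rw [pp_zero (by omega) (by omega)]
        simp

lemma PH_ne : PH ≠ 0 := by
  intro h
  have h1 := PH_coe 0
  rw [h] at h1
  have h2 : ((0 : L1 nu om) : ℕ → ℂ) 0 = 0 :=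
    (ae_iff_of_pos mm_pos).1 (Lp.coeFn_zero ℂ 1 mm) 0
  rw [h2] at h1
  unfold ph at h1
  norm_num at h1

lemma not_bounded : ¬ GeneratesUniformlyBounded nu pp om := by
  rintro ⟨T, hT, hg, M, hM⟩
  have h1 := (hg PH _).1 PH_eigen
  have hn : 0 < ‖PH‖ := norm_pos_iff.2 PH_ne
  have h2 : ∀ t : ℝ, 0 ≤ t → Real.exp (2 / 3 * t) ≤ M := by
    intro t ht
    have h3 := Q82.Semi.eigen hT.zero hT.add hT.cont h1 ht
    have h4 : ‖T t PH‖ ≤ M * ‖PH‖ :=
      ((T t).le_opNorm PH).trans (mul_le_mul_of_nonneg_right (hM t ht) hn.le)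
    rw [h3, norm_smul] at h4
    have h5 : ‖Complex.exp (((2 / 3 : ℝ) : ℂ) * t)‖ = Real.exp (2 / 3 * t) := by
      rw [← Complex.ofReal_mul, Complex.norm_exp_ofReal]
    rw [h5] at h4
    exact le_of_mul_le_mul_right h4 hn
  have hM1 : 1 ≤ M := by simpa using h2 0 le_rfl
  have h3 := h2 (3 / 2 * M) (by positivity)
  have h4 := Real.add_one_le_exp (2 / 3 * (3 / 2 * M))
  have h5 : 2 / 3 * (3 / 2 * M) = M := by ring
  rw [h5] at h3 h4
  linarith

/-- There are data satisfying all the assumptions, with `ω⁻¹ ∈ L¹(μ)`, for which `U₁` does not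
generate a uniformly bounded `C₀`-semigroup on `L¹(μ)`. -/
theorem result :
    ∃ (Ω : Type) (_ : MeasurableSpace Ω) (ν : Measure Ω) (p : Ω → Ω → ℝ) (ω : Ω → ℝ),
      Assumptions ν p ω ∧ Integrable (fun x => 1 / ω x) (mu ν ω) ∧
      ¬ GeneratesUniformlyBounded ν p ω :=
  ⟨ℕ, inferInstance, nu, pp, om, assumptions, om_inv_integrable, not_bounded⟩

end

end Pool.Agent.Results.MP_ae1cd8_an.Unbounded
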